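import Pool.Agent.Lib.MP_720f8f_co.Lower
import Pool.Agent.Lib.MP_720f8f_co.Upper

/-!
# `R_t(n) = (2 - 2^(-⌊t/2⌋)) n + O_t(n^(t/(t+1)))` for every fixed `t`
-/

set_option autoImplicit false

namespace Pool.Agent.Results.MP_720f8f_co.Asymptotics

open Filter Topology ReachNet

theorem upper_nat {t n : ℕ} (ht : 1 ≤ t) (h : t ≤ n) (D : ℕ) (hD : 1 ≤ D) :
    ∃ L : List (Fin n × Fin n), IsNet h L ∧
      L.length ≤ (n - t) / 2 ^ (t / 2) * (2 * 2 ^ (t / 2) - 1) +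
        (n / D + 2 ^ (t / 2) * (1 + D * 2 ^ (t / 2)) ^ t + 2) * LL t := by
  apply exists_net ht h D (n / D + 2 ^ (t / 2) * (1 + D * 2 ^ (t / 2)) ^ t)
  have h1 : (n - t) / 2 ^ (t / 2) * 2 ^ (t / 2) ≤ n :=
    (Nat.div_mul_le_self _ _).trans (Nat.sub_le _ _)
  have h2 : n ≤ (n / D + 1) * D := by
    have := Nat.lt_div_mul_add (a := n) (b := D) hD
    rw [add_mul, one_mul]
    omega
  calc (n - t) / 2 ^ (t / 2) * 2 ^ (t / 2) + 2 ^ (t / 2) * (1 + D * 2 ^ (t / 2)) ^ t * D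
      ≤ (n / D + 1) * D + 2 ^ (t / 2) * (1 + D * 2 ^ (t / 2)) ^ t * D :=
        Nat.add_le_add_right (h1.trans h2) _
    _ = (n / D + 2 ^ (t / 2) * (1 + D * 2 ^ (t / 2)) ^ t + 1) * D := by ring

theorem nonempty_net {t n : ℕ} (ht : 1 ≤ t) (h : t ≤ n) :
    ∃ L : List (Fin n × Fin n), IsNet h L := by
  obtain ⟨L, hL, -⟩ := upper_nat ht h 1 le_rfl
  exact ⟨L, hL⟩

theorem lower_R {t n : ℕ} (ht : 1 ≤ t) (h : t ≤ n) :
    (2 - (1 / 2 : ℝ) ^ (t / 2)) * n - t ≤ R t n := by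
  obtain ⟨L0, hL0⟩ := nonempty_net ht h
  have hne : {l | ∃ (h : t ≤ n) (L : List (Fin n × Fin n)), IsNet h L ∧ L.length = l}.Nonempty :=
    ⟨L0.length, h, L0, hL0, rfl⟩
  obtain ⟨h', L, hL, hl⟩ := Nat.sInf_mem hne
  have := lower ht hL
  rw [hl] at this
  exact this

theorem upper_R {t : ℕ} (ht : 1 ≤ t) : ∃ C : ℝ, ∀ n : ℕ, t ≤ n →
    (R t n : ℝ) ≤ (2 - (1 / 2 : ℝ) ^ (t / 2)) * n + C * (n : ℝ) ^ ((t : ℝ) / (t + 1)) := by
  set q : ℕ := 2 ^ (t / 2) with hq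
  have hq1 : 1 ≤ q := Nat.one_le_two_pow
  refine ⟨(3 + q * (2 * (1 + q)) ^ t) * LL t, fun n hn => ?_⟩
  have hn1 : 1 ≤ n := ht.trans hn
  have hn1' : (1 : ℝ) ≤ n := by exact_mod_cast hn1
  have hn0 : (0 : ℝ) < n := by linarith
  have ht1 : (0 : ℝ) < (t : ℝ) + 1 := by positivity
  -- `D = ⌈n ^ (1 / (t + 1))⌉`
  set s : ℝ := (n : ℝ) ^ (1 / ((t : ℝ) + 1)) with hs
  have hs1 : 1 ≤ s := Real.one_le_rpow hn1' (by positivity)
  set D : ℕ := ⌈s⌉₊ with hD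
  have hsD : s ≤ D := Nat.le_ceil s
  have hD1 : 1 ≤ D := by
    have : (1 : ℝ) ≤ D := hs1.trans hsD
    exact_mod_cast this
  have hDs : (D : ℝ) ≤ 2 * s := by
    have := Nat.ceil_lt_add_one (by linarith : (0 : ℝ) ≤ s)
    linarith
  have hst : s ^ t = (n : ℝ) ^ ((t : ℝ) / (t + 1)) := by
    rw [hs, ← Real.rpow_natCast, ← Real.rpow_mul hn0.le]
    congr 1
    field_simp
  have hss : s * s ^ t = n := by
    rw [← pow_succ', hs, ← Real.rpow_natCast, ← Real.rpow_mul hn0.le]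
    push_cast
    rw [one_div, inv_mul_cancel₀ ht1.ne', Real.rpow_one]
  have hst1 : 1 ≤ s ^ t := one_le_pow₀ hs1
  obtain ⟨L, hL, hlen⟩ := upper_nat ht hn D hD1
  rw [← hq] at hlen
  have hR : R t n ≤ L.length := Nat.sInf_le ⟨hn, L, hL, rfl⟩
  have hR' : (R t n : ℝ) ≤ (((n - t) / q * (2 * q - 1) +
      (n / D + q * (1 + D * q) ^ t + 2) * LL t : ℕ) : ℝ) := by
    exact_mod_cast hR.trans hlen
  refine hR'.trans ?_
  push_cast
  -- first part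
  have e1 : (((n - t) / q : ℕ) : ℝ) * ((2 * q - 1 : ℕ) : ℝ) ≤
      (2 - (1 / 2 : ℝ) ^ (t / 2)) * n := by
    have k1 : (((n - t) / q : ℕ) : ℝ) * q ≤ n := by
      have : (n - t) / q * q ≤ n := (Nat.div_mul_le_self _ _).trans (Nat.sub_le _ _)
      exact_mod_cast this
    have k2 : ((2 * q - 1 : ℕ) : ℝ) = 2 * q - 1 := by
      rw [Nat.cast_sub (by omega)]
      push_cast
      ring
    have k3 : (1 / 2 : ℝ) ^ (t / 2) * q = 1 := by
      rw [hq]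
      push_cast
      rw [← mul_pow]
      norm_num
    have k4 : (2 : ℝ) * q - 1 = (2 - (1 / 2 : ℝ) ^ (t / 2)) * q := by
      rw [sub_mul, k3]
    have k5 : 0 ≤ 2 - (1 / 2 : ℝ) ^ (t / 2) := by
      have : (1 / 2 : ℝ) ^ (t / 2) ≤ 1 := pow_le_one₀ (by norm_num) (by norm_num)
      linarith
    rw [k2, k4]
    calc (((n - t) / q : ℕ) : ℝ) * ((2 - (1 / 2 : ℝ) ^ (t / 2)) * q)
        = (2 - (1 / 2 : ℝ) ^ (t / 2)) * ((((n - t) / q : ℕ) : ℝ) * q) := by ring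
      _ ≤ (2 - (1 / 2 : ℝ) ^ (t / 2)) * n := mul_le_mul_of_nonneg_left k1 k5
  -- second part
  have e2 : ((n / D : ℕ) : ℝ) ≤ s ^ t := by
    have k1 : ((n / D : ℕ) : ℝ) ≤ (n : ℝ) / D := Nat.cast_div_le
    have hDpos : (0 : ℝ) < D := by linarith
    refine k1.trans ?_
    rw [div_le_iff₀ hDpos]
    calc (n : ℝ) = s * s ^ t := hss.symm
      _ ≤ D * s ^ t := mul_le_mul_of_nonneg_right hsD (by positivity)
      _ = s ^ t * D := mul_comm _ _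
  have e3 : (1 + (D : ℝ) * q) ^ t ≤ (2 * (1 + (q : ℝ))) ^ t * s ^ t := by
    rw [← mul_pow]
    apply pow_le_pow_left₀ (by positivity)
    have : (0 : ℝ) ≤ q := by positivity
    nlinarith
  have hLL : (0 : ℝ) ≤ LL t := by positivity
  have e4 : ((n / D : ℕ) : ℝ) + q * (1 + (D : ℝ) * q) ^ t + 2 ≤
      (3 + q * (2 * (1 + (q : ℝ))) ^ t) * s ^ t := by
    have k1 : (q : ℝ) * (1 + (D : ℝ) * q) ^ t ≤ q * ((2 * (1 + (q : ℝ))) ^ t * s ^ t) :=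
      mul_le_mul_of_nonneg_left e3 (by positivity)
    nlinarith
  have e5 := mul_le_mul_of_nonneg_right e4 hLL
  rw [← hst]
  calc (((n - t) / q : ℕ) : ℝ) * ((2 * q - 1 : ℕ) : ℝ) +
        (((n / D : ℕ) : ℝ) + q * (1 + (D : ℝ) * q) ^ t + 2) * LL t
      ≤ (2 - (1 / 2 : ℝ) ^ (t / 2)) * n +
        (3 + q * (2 * (1 + (q : ℝ))) ^ t) * s ^ t * LL t := add_le_add e1 e5
    _ = _ := by ring

theorem tendsto_R {t : ℕ} (ht : 1 ≤ t) :
    Tendsto (fun n : ℕ => (R t n : ℝ) / n) atTop (𝓝 (2 - (1 / 2 : ℝ) ^ (t / 2))) := by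
  obtain ⟨C, hC⟩ := upper_R ht
  set a : ℝ := 2 - (1 / 2 : ℝ) ^ (t / 2) with ha
  have ht1 : (0 : ℝ) < (t : ℝ) + 1 := by positivity
  have hlow : Tendsto (fun n : ℕ => a - t / n) atTop (𝓝 a) := by
    have h1 : Tendsto (fun n : ℕ => t / (n : ℝ)) atTop (𝓝 0) :=
      tendsto_const_div_atTop_nhds_zero_nat _
    have h2 := h1.const_sub a
    rwa [sub_zero] at h2
  have hup : Tendsto (fun n : ℕ => a + C * ((n : ℝ) ^ (-(1 / ((t : ℝ) + 1))))) atTop (𝓝 a) := by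
    have h1 : Tendsto (fun n : ℕ => ((n : ℝ) ^ (-(1 / ((t : ℝ) + 1))))) atTop (𝓝 0) :=
      (tendsto_rpow_neg_atTop (by positivity)).comp tendsto_natCast_atTop_atTop
    have h2 := (h1.const_mul C).const_add a
    rwa [mul_zero, add_zero] at h2
  refine tendsto_of_tendsto_of_tendsto_of_le_of_le' hlow hup ?_ ?_
  · filter_upwards [eventually_ge_atTop (max t 1)] with n hn
    have hn1 : (0 : ℝ) < n := by
      have : 0 < n := by omega
      exact_mod_cast this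
    have := lower_R ht (show t ≤ n by omega)
    rw [le_div_iff₀ hn1, sub_mul, div_mul_cancel₀ _ hn1.ne']
    exact this
  · filter_upwards [eventually_ge_atTop (max t 1)] with n hn
    have hn1 : (0 : ℝ) < n := by
      have : 0 < n := by omega
      exact_mod_cast this
    have := hC n (by omega)
    rw [div_le_iff₀ hn1]
    have h3 : (n : ℝ) ^ (-(1 / ((t : ℝ) + 1))) * n = (n : ℝ) ^ ((t : ℝ) / (t + 1)) := by
      conv_lhs => rw [show (n : ℝ) ^ (-(1 / ((t : ℝ) + 1))) * n =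
        (n : ℝ) ^ (-(1 / ((t : ℝ) + 1))) * (n : ℝ) ^ (1 : ℝ) by rw [Real.rpow_one]]
      rw [← Real.rpow_add hn1]
      congr 1
      field_simp
      ring
    rw [add_mul, mul_assoc, h3]
    exact this

/-- **Asymptotics of the shortest `t`-reachability networks**, for every fixed `t ≥ 1`. -/
theorem result :
    (∀ (t n : ℕ) (h : t ≤ n), 1 ≤ t →
      (∃ L : List (Fin n × Fin n), IsNet h L) ∧
      ∀ L : List (Fin n × Fin n), IsNet h L →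
        (2 - (1 / 2 : ℝ) ^ (t / 2)) * n - t ≤ L.length) ∧
    (∀ t : ℕ, 1 ≤ t → ∃ C : ℝ, ∀ n : ℕ, t ≤ n →
      |(R t n : ℝ) - (2 - (1 / 2 : ℝ) ^ (t / 2)) * n| ≤ C * (n : ℝ) ^ ((t : ℝ) / (t + 1))) ∧
    (∀ t : ℕ, 1 ≤ t →
      Tendsto (fun n : ℕ => (R t n : ℝ) / n) atTop (𝓝 (2 - (1 / 2 : ℝ) ^ (t / 2)))) := by
  refine ⟨fun t n h ht => ⟨nonempty_net ht h, fun L hL => lower ht hL⟩, ?_,
    fun t ht => tendsto_R ht⟩
  intro t ht
  obtain ⟨C, hC⟩ := upper_R ht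
  refine ⟨max C (2 * t), fun n hn => ?_⟩
  have hn1 : (1 : ℝ) ≤ n := by exact_mod_cast ht.trans hn
  have hp : 1 ≤ (n : ℝ) ^ ((t : ℝ) / (t + 1)) := Real.one_le_rpow hn1 (by positivity)
  have ha0 : (0 : ℝ) ≤ (1 / 2) ^ (t / 2) := by positivity
  have ha1 : (1 / 2 : ℝ) ^ (t / 2) ≤ 1 := pow_le_one₀ (by norm_num) (by norm_num)
  have h1 := hC n hn
  have h2 := lower_R ht hn
  have h3 : C * (n : ℝ) ^ ((t : ℝ) / (t + 1)) ≤
      max C (2 * t) * (n : ℝ) ^ ((t : ℝ) / (t + 1)) :=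
    mul_le_mul_of_nonneg_right (le_max_left _ _) (by linarith)
  have h4 : (2 * t : ℝ) ≤ max C (2 * t) * (n : ℝ) ^ ((t : ℝ) / (t + 1)) := by
    have h5 : (2 * t : ℝ) ≤ max C (2 * t) := le_max_right _ _
    have h6 : (0 : ℝ) ≤ max C (2 * t) := le_trans (by positivity) h5
    calc (2 * t : ℝ) ≤ max C (2 * t) * 1 := by linarith
      _ ≤ _ := mul_le_mul_of_nonneg_left hp h6
  rw [abs_le]
  constructor
  · have h7 : (0 : ℝ) ≤ t := Nat.cast_nonneg _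
    linarith
  · linarith

end Pool.Agent.Results.MP_720f8f_co.Asymptotics
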