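import Pool.Agent.Lib.MP_720f8f_co.StarLower
import Pool.Agent.Lib.MP_720f8f_co.StarUpper

/-!
# Star networks: `R*_t(n) = (2 - δ_t) n + O_t(n^(1 - ε_t))` for every fixed `t`,
`δ_t = 3^(-m)` for `t = 2 m + 1` and `δ_t = 3^(1-m) / 2` for `t = 2 m`
-/

set_option autoImplicit false

namespace Pool.Agent.Results.MP_720f8f_co.StarAsymptotics

open Filter Topology ReachNet

/-- `δ_t`: `3 ^ (-m)` for `t = 2 m + 1` and `(3 / 2) * 3 ^ (-m)` for `t = 2 m`. -/
noncomputable def delta (t : ℕ) : ℝ := (if t % 2 = 1 then 1 else 3 / 2) * (1 / 3) ^ (t / 2)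

/-- `L` is a star network: a `t`-reachability network all of whose transpositions are of the
form `(0, a)` (the first position is called `0` here). -/
def IsStarNet {t n : ℕ} (h : t ≤ n) (L : List (Fin n × Fin n)) : Prop :=
  IsNet h L ∧ ∀ T ∈ L, T.1.val = 0

/-- `RStar t n` is the minimum length of a `t`-reachability network on `n` positions which
consists of star transpositions. -/
noncomputable def RStar (t n : ℕ) : ℕ :=
  sInf {l | ∃ (h : t ≤ n) (L : List (Fin n × Fin n)), IsStarNet h L ∧ L.length = l}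

theorem delta_eq (t : ℕ) : delta t = dlt t := rfl

theorem nonempty_net {t n : ℕ} (ht : 1 ≤ t) (h : t ≤ n) :
    ∃ L : List (Fin n × Fin n), IsStarNet h L := by
  obtain ⟨L, h1, h2, -⟩ := exists_star_small ht h
  exact ⟨L, h1, h2⟩

theorem lower_net {t n : ℕ} (ht : 1 ≤ t) (h : t ≤ n) (L : List (Fin n × Fin n))
    (hL : IsStarNet h L) :
    (2 - delta t) * n - t - (1 - delta t) / 2 ≤ L.length :=
  lowerS ht hL.1 hL.2

theorem lower_R {t n : ℕ} (ht : 1 ≤ t) (h : t ≤ n) :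
    (2 - delta t) * n - t - (1 - delta t) / 2 ≤ RStar t n := by
  obtain ⟨L0, hL0⟩ := nonempty_net ht h
  have hne : {l | ∃ (h : t ≤ n) (L : List (Fin n × Fin n)), IsStarNet h L ∧
      L.length = l}.Nonempty := ⟨L0.length, h, L0, hL0, rfl⟩
  obtain ⟨h', L, hL, hl⟩ := Nat.sInf_mem hne
  have := lower_net ht h' L hL
  rw [hl] at this
  exact this

/-- the exponent of `M` -/
def KK (t : ℕ) : ℕ := 4 * t * (t / 2 + 1) + 2

theorem upper_R {t : ℕ} (ht : 1 ≤ t) : ∃ C : ℝ, 0 ≤ C ∧ ∀ n : ℕ, t ≤ n →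
    (RStar t n : ℝ) ≤ (2 - delta t) * n + C * (n : ℝ) ^ ((KK t : ℝ) / (KK t + 1)) := by
  obtain ⟨A, B, hA, hB, hAB⟩ := upper_param ht
  have hK : KK t = 2 * RR t + 2 := by
    unfold KK RR
    ring
  refine ⟨A + B * 2 ^ KK t, by positivity, fun n hn => ?_⟩
  have hn1 : (1 : ℝ) ≤ n := by exact_mod_cast ht.trans hn
  have hn0 : (0 : ℝ) < n := by linarith
  have hK1 : (0 : ℝ) < (KK t : ℝ) + 1 := by positivity
  set s : ℝ := (n : ℝ) ^ (1 / ((KK t : ℝ) + 1)) with hs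
  have hs1 : 1 ≤ s := Real.one_le_rpow hn1 (by positivity)
  have hs0 : 0 < s := by linarith
  set M : ℕ := ⌈s⌉₊ with hM
  have hsM : s ≤ M := Nat.le_ceil s
  have hM1 : 1 ≤ M := by
    have : (1 : ℝ) ≤ M := hs1.trans hsM
    exact_mod_cast this
  have hMs : (M : ℝ) ≤ 2 * s := by
    have := Nat.ceil_lt_add_one (by linarith : (0 : ℝ) ≤ s)
    linarith
  have hst : s ^ KK t = (n : ℝ) ^ ((KK t : ℝ) / (KK t + 1)) := by
    rw [hs, ← Real.rpow_natCast, ← Real.rpow_mul hn0.le]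
    congr 1
    field_simp
  have hss : s * s ^ KK t = n := by
    rw [← pow_succ', hs, ← Real.rpow_natCast, ← Real.rpow_mul hn0.le]
    push_cast
    rw [one_div, inv_mul_cancel₀ hK1.ne', Real.rpow_one]
  obtain ⟨L, hL1, hL2, hL3⟩ := hAB n M hM1 hn
  have hR : RStar t n ≤ L.length := Nat.sInf_le ⟨hn, L, ⟨hL1, hL2⟩, rfl⟩
  have hR' : (RStar t n : ℝ) ≤ L.length := by exact_mod_cast hR
  refine hR'.trans (hL3.trans ?_)
  rw [← hK, ← hst, delta_eq]
  have hM0 : (0 : ℝ) < M := by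
    have : (1 : ℝ) ≤ M := by exact_mod_cast hM1
    linarith
  have e1 : (n : ℝ) / M ≤ s ^ KK t := by
    rw [div_le_iff₀ hM0]
    calc (n : ℝ) = s * s ^ KK t := hss.symm
      _ ≤ M * s ^ KK t := mul_le_mul_of_nonneg_right hsM (by positivity)
      _ = s ^ KK t * M := mul_comm _ _
  have e2 : (M : ℝ) ^ KK t ≤ 2 ^ KK t * s ^ KK t := by
    rw [← mul_pow]
    exact pow_le_pow_left₀ hM0.le hMs _
  have e3 : A * (n / M) ≤ A * s ^ KK t := mul_le_mul_of_nonneg_left e1 hA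
  have e4 : B * (M : ℝ) ^ KK t ≤ B * (2 ^ KK t * s ^ KK t) := mul_le_mul_of_nonneg_left e2 hB
  calc (2 - dlt t) * n + A * (n / M) + B * (M : ℝ) ^ KK t
      ≤ (2 - dlt t) * n + A * s ^ KK t + B * (2 ^ KK t * s ^ KK t) := by linarith
    _ = (2 - dlt t) * n + (A + B * 2 ^ KK t) * s ^ KK t := by ring

theorem tendsto_R {t : ℕ} (ht : 1 ≤ t) :
    Tendsto (fun n : ℕ => (RStar t n : ℝ) / n) atTop (𝓝 (2 - delta t)) := by
  obtain ⟨C, -, hC⟩ := upper_R ht
  set a : ℝ := 2 - delta t with ha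
  have hK1 : (0 : ℝ) < (KK t : ℝ) + 1 := by positivity
  have hlow : Tendsto (fun n : ℕ => a - (t + (1 - delta t) / 2) / n) atTop (𝓝 a) := by
    have h1 : Tendsto (fun n : ℕ => (t + (1 - delta t) / 2) / (n : ℝ)) atTop (𝓝 0) :=
      tendsto_const_div_atTop_nhds_zero_nat _
    have h2 := h1.const_sub a
    rwa [sub_zero] at h2
  have hup : Tendsto (fun n : ℕ => a + C * ((n : ℝ) ^ (-(1 / ((KK t : ℝ) + 1))))) atTop
      (𝓝 a) := by
    have h1 : Tendsto (fun n : ℕ => ((n : ℝ) ^ (-(1 / ((KK t : ℝ) + 1))))) atTop (𝓝 0) :=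
      (tendsto_rpow_neg_atTop (by positivity)).comp tendsto_natCast_atTop_atTop
    have h2 := (h1.const_mul C).const_add a
    rwa [mul_zero, add_zero] at h2
  refine tendsto_of_tendsto_of_tendsto_of_le_of_le' hlow hup ?_ ?_
  · filter_upwards [eventually_ge_atTop (max t 1)] with n hn
    have hn1 : (0 : ℝ) < n := by
      have : 0 < n := by omega
      exact_mod_cast this
    have := lower_R ht (show t ≤ n by omega)
    rw [le_div_iff₀ hn1, sub_mul, div_mul_cancel₀ _ hn1.ne']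
    linarith
  · filter_upwards [eventually_ge_atTop (max t 1)] with n hn
    have hn1 : (0 : ℝ) < n := by
      have : 0 < n := by omega
      exact_mod_cast this
    have := hC n (by omega)
    rw [div_le_iff₀ hn1]
    have h3 : (n : ℝ) ^ (-(1 / ((KK t : ℝ) + 1))) * n =
        (n : ℝ) ^ ((KK t : ℝ) / (KK t + 1)) := by
      conv_lhs => rw [show (n : ℝ) ^ (-(1 / ((KK t : ℝ) + 1))) * n =
        (n : ℝ) ^ (-(1 / ((KK t : ℝ) + 1))) * (n : ℝ) ^ (1 : ℝ) by rw [Real.rpow_one]]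
      rw [← Real.rpow_add hn1]
      congr 1
      field_simp
      ring
    rw [add_mul, mul_assoc, h3]
    exact this

/-- **Asymptotics of the shortest star `t`-reachability networks**, for every fixed `t ≥ 1`. -/
theorem result :
    (∀ (t n : ℕ) (h : t ≤ n), 1 ≤ t →
      (∃ L : List (Fin n × Fin n), IsStarNet h L) ∧
      ∀ L : List (Fin n × Fin n), IsStarNet h L →
        (2 - delta t) * n - t - (1 - delta t) / 2 ≤ L.length) ∧
    (∀ t : ℕ, 1 ≤ t → ∃ C : ℝ, ∀ n : ℕ, t ≤ n →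
      |(RStar t n : ℝ) - (2 - delta t) * n| ≤
        C * (n : ℝ) ^ (1 - 1 / ((4 * t * (t / 2 + 1) + 3 : ℕ) : ℝ))) ∧
    (∀ t : ℕ, 1 ≤ t →
      Tendsto (fun n : ℕ => (RStar t n : ℝ) / n) atTop (𝓝 (2 - delta t))) := by
  refine ⟨fun t n h ht => ⟨nonempty_net ht h, lower_net ht h⟩, ?_, fun t ht => tendsto_R ht⟩
  intro t ht
  obtain ⟨C, hC0, hC⟩ := upper_R ht
  have hexp : 1 - 1 / ((4 * t * (t / 2 + 1) + 3 : ℕ) : ℝ) = (KK t : ℝ) / (KK t + 1) := by
    have h1 : ((4 * t * (t / 2 + 1) + 3 : ℕ) : ℝ) = (KK t : ℝ) + 1 := by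
      unfold KK
      push_cast
      ring
    have h2 : (0 : ℝ) < (KK t : ℝ) + 1 := by positivity
    rw [h1]
    field_simp
    ring
  rw [hexp]
  refine ⟨C + 2 * t, fun n hn => ?_⟩
  have hn1 : (1 : ℝ) ≤ n := by exact_mod_cast ht.trans hn
  have hp : 1 ≤ (n : ℝ) ^ ((KK t : ℝ) / (KK t + 1)) := Real.one_le_rpow hn1 (by positivity)
  have hd0 : 0 < delta t := dlt_pos t
  have hd1 : delta t ≤ 1 := dlt_le_one ht
  have h1 := hC n hn
  have h2 := lower_R ht hn
  have ht0 : (0 : ℝ) ≤ t := Nat.cast_nonneg _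
  set p := (n : ℝ) ^ ((KK t : ℝ) / (KK t + 1)) with hpdef
  have h4 : 2 * (t : ℝ) ≤ 2 * t * p := by
    calc 2 * (t : ℝ) = 2 * t * 1 := (mul_one _).symm
      _ ≤ 2 * t * p := mul_le_mul_of_nonneg_left hp (by positivity)
  have h5 : 0 ≤ C * p := mul_nonneg hC0 (by linarith)
  have h6 : (C + 2 * t) * p = C * p + 2 * t * p := by ring
  rw [h6, abs_le]
  constructor
  · have h7 : (1 : ℝ) ≤ t := by exact_mod_cast ht
    linarith
  · linarith

end Pool.Agent.Results.MP_720f8f_co.StarAsymptotics
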