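import Pool.Agent.Lib.MP_720f8f_co.Exact.Run
import Pool.Agent.Lib.MP_720f8f_co.Exact.Main

/-!
# Star networks with three counters: the exact value `R*_3(n) = ⌈5 n / 3⌉` for all `n ≥ 6`
-/

set_option autoImplicit false

namespace Pool.Agent.Results.MP_720f8f_co.StarThreeExact

open ReachNet

/-- `L` is a star network: a `t`-reachability network all of whose transpositions are of the
form `(0, a)` (the first position is called `0` here). -/
def IsStarNet {t n : ℕ} (h : t ≤ n) (L : List (Fin n × Fin n)) : Prop :=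
  IsNet h L ∧ ∀ T ∈ L, T.1.val = 0

/-- The lengths of the `t`-reachability networks on `n` positions which consist of star
transpositions. -/
def StarLengths (t n : ℕ) : Set ℕ :=
  {l | ∃ (h : t ≤ n) (L : List (Fin n × Fin n)), IsStarNet h L ∧ L.length = l}

/-- `RStar t n` is the minimum length of a `t`-reachability network on `n` positions which
consists of star transpositions. -/
noncomputable def RStar (t n : ℕ) : ℕ := sInf (StarLengths t n)

theorem least_big {n : ℕ} (hn : 6 ≤ n) : IsLeast (StarLengths 3 n) (2 * n - n / 3) := by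
  have h : 3 ≤ n := by omega
  have hlow : ∀ l ∈ StarLengths 3 n, 2 * n - n / 3 ≤ l := by
    rintro l ⟨h', L, hL, rfl⟩
    have := Ex.length_bound h' hn Ex.search6 L hL.1 hL.2
    omega
  obtain ⟨L, h1, h2, h3⟩ := ST.exists_star3 hn h
  have hmem : L.length ∈ StarLengths 3 n := ⟨h, L, ⟨h1, h2⟩, rfl⟩
  have h4 := hlow _ hmem
  have h5 : L.length = 2 * n - n / 3 := by omega
  rw [← h5] at hlow ⊢
  exact ⟨hmem, hlow⟩

theorem least3 : IsLeast (StarLengths 3 3) 3 := by
  refine ⟨⟨by norm_num, _, ⟨Ex.net3, by decide⟩, rfl⟩, ?_⟩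
  rintro l ⟨h', L, hL, rfl⟩
  have := Ex.length_bound h' le_rfl Ex.search3 L hL.1 hL.2
  omega

theorem least4 : IsLeast (StarLengths 3 4) 6 := by
  refine ⟨⟨by norm_num, _, ⟨Ex.net4, by decide⟩, rfl⟩, ?_⟩
  rintro l ⟨h', L, hL, rfl⟩
  have := Ex.length_bound h' le_rfl Ex.search4 L hL.1 hL.2
  omega

theorem least5 : IsLeast (StarLengths 3 5) 8 := by
  refine ⟨⟨by norm_num, _, ⟨Ex.net5, by decide⟩, rfl⟩, ?_⟩
  rintro l ⟨h', L, hL, rfl⟩
  have := Ex.length_bound h' le_rfl Ex.search5 L hL.1 hL.2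
  omega

theorem ceil_eq (n : ℕ) : ⌈(5 * n : ℝ) / 3⌉ = ((2 * n - n / 3 : ℕ) : ℤ) := by
  have h1 : 3 * (n / 3) ≤ n := by omega
  have h2 : n < 3 * (n / 3) + 3 := by omega
  have h3 : n / 3 ≤ 2 * n := by omega
  rw [Int.ceil_eq_iff]
  have h1' : (3 : ℝ) * ((n / 3 : ℕ) : ℝ) ≤ n := by exact_mod_cast h1
  have h2' : (n : ℝ) < 3 * ((n / 3 : ℕ) : ℝ) + 3 := by exact_mod_cast h2
  have h4 : (((2 * n - n / 3 : ℕ) : ℤ) : ℝ) = 2 * n - ((n / 3 : ℕ) : ℝ) := by
    rw [Int.cast_natCast, Nat.cast_sub h3]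
    push_cast
    ring
  rw [h4]
  constructor <;> linarith

/-- **The shortest star networks for three counters.** -/
theorem result :
    (∀ n : ℕ, 6 ≤ n → (RStar 3 n : ℤ) = ⌈(5 * n : ℝ) / 3⌉) ∧
    RStar 3 3 = 3 ∧ RStar 3 4 = 6 ∧ RStar 3 5 = 8 ∧
    (∀ n : ℕ, 3 ≤ n → IsLeast (StarLengths 3 n) (RStar 3 n)) := by
  have h3 := least3.csInf_eq
  have h4 := least4.csInf_eq
  have h5 := least5.csInf_eq
  refine ⟨fun n hn => ?_, h3, h4, h5, fun n hn => ?_⟩
  · rw [ceil_eq]
    have := (least_big hn).csInf_eq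
    unfold RStar
    rw [this]
  · unfold RStar
    rcases Nat.lt_or_ge n 6 with h | h
    · interval_cases n
      · rw [h3]
        exact least3
      · rw [h4]
        exact least4
      · rw [h5]
        exact least5
    · rw [(least_big h).csInf_eq]
      exact least_big h

end Pool.Agent.Results.MP_720f8f_co.StarThreeExact
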