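import Pool.Agent.Lib.MP_720f8f_co.Lower3

/-!
# `R_3(n) = (3 n + √n) / 2 + O(1)`
-/

set_option autoImplicit false

namespace Pool.Agent.Results.MP_720f8f_co.ThreeCounters

open ReachNet

theorem lower_net {n : ℕ} (h : 3 ≤ n) (L : List (Fin n × Fin n)) (hL : IsNet h L) :
    3 * (n : ℝ) + Real.sqrt n - 6 ≤ 2 * L.length := by
  obtain ⟨h1, h2⟩ := lower3 hL
  have h3 : ((2 * L.length + 6 - 3 * n : ℕ) : ℝ) = 2 * L.length + 6 - 3 * n := by
    rw [Nat.cast_sub h1]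
    push_cast
    ring
  have h4 : (n : ℝ) ≤ ((2 * L.length + 6 - 3 * n : ℕ) : ℝ) ^ 2 := by exact_mod_cast h2
  have h5 : Real.sqrt n ≤ ((2 * L.length + 6 - 3 * n : ℕ) : ℝ) := by
    rw [Real.sqrt_le_left (Nat.cast_nonneg _)]
    exact h4
  rw [h3] at h5
  linarith

theorem upper_net {n : ℕ} (h : 3 ≤ n) :
    ∃ L : List (Fin n × Fin n), IsNet h L ∧
      2 * (L.length : ℝ) ≤ 3 * n + Real.sqrt n + 42 := by
  set s := Real.sqrt n with hs
  have hs0 : 0 ≤ s := Real.sqrt_nonneg _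
  have hss : s * s = n := Real.mul_self_sqrt (Nat.cast_nonneg _)
  set q : ℕ := ⌈(s + 25) / 2⌉₊ with hq
  have hq1 : (s + 25) / 2 ≤ q := Nat.le_ceil _
  have hq2 : (q : ℝ) < (s + 25) / 2 + 1 := Nat.ceil_lt_add_one (by linarith)
  have hq12 : 25 ≤ 2 * q := by
    have : (25 : ℝ) ≤ 2 * q := by linarith
    exact_mod_cast this
  obtain ⟨K, hK⟩ : ∃ K : ℕ, 2 * q = 25 + K := ⟨2 * q - 25, by omega⟩
  have hKr : (2 : ℝ) * q = 25 + K := by exact_mod_cast hK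
  have hsK : s ≤ K := by linarith
  have hn : n ≤ (2 * q - 24) * (2 * q - 24 - 1) := by
    have e1 : 2 * q - 24 = K + 1 := by omega
    rw [e1, Nat.add_sub_cancel]
    have : (n : ℝ) ≤ (K + 1) * K := by
      rw [← hss]
      calc s * s ≤ K * K := mul_le_mul hsK hsK hs0 (Nat.cast_nonneg _)
        _ ≤ (K + 1) * K := by
          have : (0 : ℝ) ≤ K := Nat.cast_nonneg _
          nlinarith
    exact_mod_cast this
  obtain ⟨L, hL, hlen⟩ := exists_net3 h q hn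
  refine ⟨L, hL, ?_⟩
  have : (2 : ℝ) * L.length ≤ 3 * n + 2 * q + 15 := by exact_mod_cast hlen
  linarith

/-- **The shortest `3`-reachability networks, up to an additive constant**:
`3 n + √n - 6 ≤ 2 R_3(n) ≤ 3 n + √n + 42` for all `n ≥ 3`. -/
theorem result :
    (∀ (n : ℕ) (h : 3 ≤ n) (L : List (Fin n × Fin n)), IsNet h L →
      3 * (n : ℝ) + Real.sqrt n - 6 ≤ 2 * L.length) ∧
    (∀ (n : ℕ) (h : 3 ≤ n), ∃ L : List (Fin n × Fin n), IsNet h L ∧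
      2 * (L.length : ℝ) ≤ 3 * n + Real.sqrt n + 42) ∧
    (∀ n : ℕ, 3 ≤ n → 3 * (n : ℝ) + Real.sqrt n - 6 ≤ 2 * (R 3 n : ℝ) ∧
      2 * (R 3 n : ℝ) ≤ 3 * n + Real.sqrt n + 42) ∧
    (∀ n : ℕ, 3 ≤ n → |(R 3 n : ℝ) - (3 * n + Real.sqrt n) / 2| ≤ 21) := by
  have h3 : ∀ n : ℕ, 3 ≤ n → 3 * (n : ℝ) + Real.sqrt n - 6 ≤ 2 * (R 3 n : ℝ) ∧
      2 * (R 3 n : ℝ) ≤ 3 * n + Real.sqrt n + 42 := by
    intro n h
    obtain ⟨L0, hL0, hlen⟩ := upper_net h
    have hne : {l | ∃ (h : 3 ≤ n) (L : List (Fin n × Fin n)), IsNet h L ∧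
        L.length = l}.Nonempty := ⟨L0.length, h, L0, hL0, rfl⟩
    constructor
    · obtain ⟨h', L, hL, hl⟩ := Nat.sInf_mem hne
      have := lower_net h' L hL
      rw [hl] at this
      exact this
    · have h1 : R 3 n ≤ L0.length := Nat.sInf_le ⟨h, L0, hL0, rfl⟩
      have h2 : (R 3 n : ℝ) ≤ L0.length := by exact_mod_cast h1
      linarith
  refine ⟨fun n h L hL => lower_net h L hL, fun n h => upper_net h, h3, fun n h => ?_⟩
  obtain ⟨h1, h2⟩ := h3 n h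
  rw [abs_le]
  constructor <;> linarith

end Pool.Agent.Results.MP_720f8f_co.ThreeCounters
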